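import Pool.Agent.W586.GZ.Stm

set_option autoImplicit false
open Filter Topology

namespace Pool.Agent.W849.GZ.SPARSE

open Pool.Agent.W586.GZ

/-- the rows restricted to odd coordinates have `l_1` norm at most `C` -/
theorem row (P : Par) (t : ℕ → ℕ → ℝ) (C : ℝ) (hC : CB (WX P) t C) (i : ℕ) (s : Finset ℕ)
    (hs : ∀ j ∈ s, Odd j) : ∑ j ∈ s, |t i j| ≤ C := by
  classical
  set x : ℕ → ℝ := fun j => if j ∈ s then (if 0 ≤ t i j then 1 else -1) else 0 with hx
  have hx1 : ∀ n, |x n| ≤ 1 := by
    intro n
    simp only [hx]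
    split_ifs <;> simp
  have hcut : cut {n | Even n} x = fun _ => 0 := by
    funext n
    unfold cut
    by_cases hn : Even n
    · rw [Set.indicator_of_mem (by simpa using hn)]
      simp only [hx]
      rw [if_neg]
      intro h
      exact (Nat.not_even_iff_odd.mpr (hs n h)) hn
    · rw [Set.indicator_of_notMem (by simpa using hn)]
  have hNB : NB (WX P) x 1 := by
    rw [NB_WX]
    refine ⟨?_, fun n _ => hx1 n⟩
    rw [hcut]
    intro f _
    rw [ev_zero_right]
    norm_num
  have h1 := hC.2 (insert i s) x 1 hNB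
  have h2 := h1.coord (WX_idl P) i
  rw [mv_apply_of_mem _ _ _ _ (Finset.mem_insert_self i s), mul_one] at h2
  have h3 : ∑ j ∈ insert i s, t i j * x j = ∑ j ∈ s, |t i j| := by
    have h4 : ∑ j ∈ insert i s, t i j * x j = ∑ j ∈ s, t i j * x j := by
      symm
      refine Finset.sum_subset (Finset.subset_insert i s) ?_
      intro j _ hj
      simp only [hx]
      rw [if_neg hj, mul_zero]
    rw [h4]
    refine Finset.sum_congr rfl (fun j hj => ?_)
    simp only [hx]
    rw [if_pos hj]
    split_ifs with h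
    · rw [mul_one, abs_of_nonneg h]
    · push Not at h
      rw [abs_of_neg h]; ring
  rw [h3] at h2
  exact (le_abs_self _).trans h2

/-- tails of the rows -/
theorem tail (P : Par) (t : ℕ → ℕ → ℝ) (C : ℝ) (hC : CB (WX P) t C) (i : ℕ) (θ : ℝ) (hθ : 0 < θ) :
    ∃ R : ℕ, ∀ s : Finset ℕ, (∀ j ∈ s, Odd j ∧ R ≤ j) → ∑ j ∈ s, |t i j| ≤ θ := by
  classical
  set g : ℕ → ℝ := fun j => if Odd j then |t i j| else 0 with hg
  have hg0 : ∀ j, 0 ≤ g j := by
    intro j
    simp only [hg]
    split_ifs
    · exact abs_nonneg _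
    · exact le_refl _
  have hsum : Summable g := by
    refine summable_of_sum_le hg0 (c := C) ?_
    intro u
    have h1 : ∑ j ∈ u, g j = ∑ j ∈ u.filter (fun j => Odd j), |t i j| := by
      rw [Finset.sum_filter]
    rw [h1]
    exact row P t C hC i _ (fun j hj => (Finset.mem_filter.mp hj).2)
  obtain ⟨u, hu⟩ := summable_iff_vanishing_norm.mp hsum θ hθ
  refine ⟨u.sup id + 1, fun s hs => ?_⟩
  have hdis : Disjoint s u := by
    rw [Finset.disjoint_left]
    intro j hj hju
    have h1 := (hs j hj).2
    have h2 : id j ≤ u.sup id := Finset.le_sup hju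
    simp only [id] at h2
    omega
  have h1 := hu s hdis
  have h2 : ∑ j ∈ s, g j = ∑ j ∈ s, |t i j| := by
    refine Finset.sum_congr rfl (fun j hj => ?_)
    simp only [hg]
    rw [if_pos (hs j hj).1]
  rw [h2] at h1
  exact ((le_abs_self _).trans (le_of_eq (Real.norm_eq_abs _).symm)).trans h1.le

theorem main : S_SPARSE := by
  classical
  intro P t C hC hcol η hη
  have hη2 : 0 < η / 2 := by positivity
  choose R hR using fun i => tail P t C hC i (η / 2) hη2
  -- columns
  have hc : ∀ j : ℕ, ∃ M : ℕ, ∀ i, M ≤ i → |t i j| ≤ η / 2 ^ (j + 2) := by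
    intro j
    have hpos : 0 < η / 2 ^ (j + 2) := by positivity
    have h1 := (Metric.tendsto_atTop.mp (hcol j)) _ hpos
    obtain ⟨M, hM⟩ := h1
    refine ⟨M, fun i hi => ?_⟩
    have h2 := hM i hi
    rw [Real.dist_eq, sub_zero] at h2
    exact h2.le
  choose M hM using hc
  -- the step
  have hstep : ∀ m : ℕ, ∃ m' : ℕ, m < m' ∧ Odd m' ∧ ∀ j, j ≤ m → M j ≤ m' ∧ R j ≤ m' := by
    intro m
    refine ⟨2 * (m + (Finset.range (m + 1)).sup M + (Finset.range (m + 1)).sup R) + 1, ?_, ?_, ?_⟩
    · omega
    · exact ⟨_, rfl⟩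
    · intro j hj
      have h1 : M j ≤ (Finset.range (m + 1)).sup M :=
        Finset.le_sup (Finset.mem_range.mpr (by omega))
      have h2 : R j ≤ (Finset.range (m + 1)).sup R :=
        Finset.le_sup (Finset.mem_range.mpr (by omega))
      omega
  choose st hst1 hst2 hst3 using hstep
  set p : ℕ → ℕ := fun a => Nat.rec 1 (fun _ m => st m) a with hp
  have hp0 : p 0 = 1 := rfl
  have hpS : ∀ a, p (a + 1) = st (p a) := fun a => rfl
  have hmono : StrictMono p := by
    refine strictMono_nat_of_lt_succ (fun a => ?_)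
    rw [hpS]
    exact hst1 _
  have hodd : ∀ a, Odd (p a) := by
    intro a
    cases a with
    | zero => rw [hp0]; exact odd_one
    | succ a => rw [hpS]; exact hst2 _
  have hlow : ∀ a b, b < a → M (p b) ≤ p a ∧ R (p b) ≤ p a := by
    intro a b hab
    cases a with
    | zero => omega
    | succ a =>
      rw [hpS]
      exact hst3 _ _ (hmono.monotone (by omega))
  refine ⟨p, hmono, hodd, ?_⟩
  intro a s ha
  have hsplit : s = s.filter (fun b => b < a) ∪ s.filter (fun b => a < b) := by
    ext b
    simp only [Finset.mem_union, Finset.mem_filter]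
    constructor
    · intro hb
      have hne : b ≠ a := fun h => ha (h ▸ hb)
      rcases lt_or_gt_of_ne hne with h | h
      · exact Or.inl ⟨hb, h⟩
      · exact Or.inr ⟨hb, h⟩
    · rintro (h | h)
      · exact h.1
      · exact h.1
  have hdis : Disjoint (s.filter (fun b => b < a)) (s.filter (fun b => a < b)) := by
    rw [Finset.disjoint_left]
    intro b h1 h2
    have h3 := (Finset.mem_filter.mp h1).2
    have h4 := (Finset.mem_filter.mp h2).2
    omega
  rw [hsplit, Finset.sum_union hdis]
  have hA : ∑ b ∈ s.filter (fun b => b < a), |t (p a) (p b)| ≤ η / 2 := by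
    have h1 : ∀ b ∈ s.filter (fun b => b < a), |t (p a) (p b)| ≤ η / 4 * (1 / 2) ^ b := by
      intro b hb
      have hba := (Finset.mem_filter.mp hb).2
      have h2 := hM (p b) (p a) (hlow a b hba).1
      refine h2.trans ?_
      have h3 : b ≤ p b := hmono.le_apply
      have h4 : (2 : ℝ) ^ (b + 2) ≤ 2 ^ (p b + 2) :=
        pow_le_pow_right₀ (by norm_num) (by omega)
      calc η / 2 ^ (p b + 2) ≤ η / 2 ^ (b + 2) :=
            div_le_div_of_nonneg_left hη.le (by positivity) h4
        _ = η / 4 * (1 / 2) ^ b := by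
            rw [pow_add, one_div, inv_pow]
            field_simp
            norm_num
    refine (Finset.sum_le_sum h1).trans ?_
    rw [← Finset.mul_sum]
    have h5 : ∑ b ∈ s.filter (fun b => b < a), ((1 : ℝ) / 2) ^ b ≤ 2 := by
      have h6 := sum_geometric_two_le (a)
      refine le_trans ?_ h6
      refine Finset.sum_le_sum_of_subset_of_nonneg ?_ ?_
      · intro b hb
        exact Finset.mem_range.mpr (Finset.mem_filter.mp hb).2
      · intro b _ _
        positivity
    nlinarith
  have hB : ∑ b ∈ s.filter (fun b => a < b), |t (p a) (p b)| ≤ η / 2 := by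
    have h1 : ∑ b ∈ s.filter (fun b => a < b), |t (p a) (p b)| =
        ∑ j ∈ (s.filter (fun b => a < b)).image p, |t (p a) j| := by
      rw [Finset.sum_image]
      intro b _ c _ h
      exact hmono.injective h
    rw [h1]
    refine hR (p a) _ ?_
    intro j hj
    obtain ⟨b, hb, rfl⟩ := Finset.mem_image.mp hj
    exact ⟨hodd b, (hlow b a (Finset.mem_filter.mp hb).2).2⟩
  linarith

end Pool.Agent.W849.GZ.SPARSE
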